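import Pool.Agent.P.MP_51656a_co.Reduce

set_option autoImplicit false

open Pool.Agent.P.MP_51656a_co

namespace Pool.Agent.Results.MP_51656a_co.BelowFifth

/-- covering number: least size of a vertex set meeting every edge -/
noncomputable def tau {n : ℕ} (E : Finset (Finset (Fin n))) : ℕ :=
  sInf {k | ∃ T : Finset (Fin n), T.card = k ∧ ∀ e ∈ E, ∃ v ∈ T, v ∈ e}

/-- the edges inside any set of at most `3 r - 3` vertices have covering number at most one -/
def LocalCond {n : ℕ} (r : ℕ) (E : Finset (Finset (Fin n))) : Prop :=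
  ∀ S : Finset (Fin n), S.card ≤ 3 * r - 3 → tau (E.filter (fun e => e ⊆ S)) ≤ 1

/-- supremum of the covering number over `r`-uniform hypergraphs with the local condition -/
noncomputable def t (r : ℕ) : ℕ∞ :=
  ⨆ (n : ℕ) (E : Finset (Finset (Fin n))) (_ : ∀ e ∈ E, e.card = r) (_ : LocalCond r E),
    (tau E : ℕ∞)

theorem result : ∃ c : ℝ, 0 < c ∧
    ∀ᶠ r : ℕ in Filter.atTop, t r ≤ (⌊(1 / 5 - c) * (r : ℝ)⌋₊ : ℕ) := by
  refine ⟨1 / 10 ^ 52, by positivity, Filter.eventually_atTop.2 ⟨10 ^ 52, fun r hr => ?_⟩⟩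
  refine iSup_le fun n => iSup_le fun E => iSup_le fun hu => iSup_le fun hl => ?_
  set b := ⌊(1 / 5 - 1 / 10 ^ 52) * (r : ℝ)⌋₊ with hb
  rw [Nat.cast_le]
  by_contra hc
  have H : Raw (E : Set (Finset (Fin n))) r b := by
    refine ⟨fun P hP => hu P hP, fun S hS P hP hPS => ?_, fun S hS => ?_, by omega⟩
    · have h1 := hl S (by omega)
      have ne : {k | ∃ T : Finset (Fin n), T.card = k ∧
          ∀ e ∈ E.filter (fun e => e ⊆ S), ∃ v ∈ T, v ∈ e}.Nonempty := by
        refine ⟨_, Finset.univ, rfl, fun e he => ?_⟩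
        have := hu e (Finset.mem_filter.1 he).1
        obtain ⟨v, hv⟩ : e.Nonempty := Finset.card_pos.1 (by omega)
        exact ⟨v, Finset.mem_univ _, hv⟩
      obtain ⟨T, hT, hT'⟩ := Nat.sInf_mem ne
      obtain ⟨x, hx, -⟩ := hT' P (Finset.mem_filter.2 ⟨hP, hPS⟩)
      refine ⟨x, fun D hD hDS => ?_⟩
      obtain ⟨y, hy, hy'⟩ := hT' D (Finset.mem_filter.2 ⟨hD, hDS⟩)
      have : y = x := Finset.card_le_one.1 (hT.le.trans h1) y hy x hx
      exact this ▸ hy'
    · by_contra h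
      have : tau E ≤ S.card := Nat.sInf_le ⟨S, rfl, fun e he => by
        by_contra h'
        exact h ⟨e, he, fun x a s => h' ⟨x, s, a⟩⟩⟩
      omega
  have hr' : (10 : ℝ) ^ 52 ≤ r := by exact_mod_cast hr
  have l1 : (1 / 5 - 1 / 10 ^ 52) * (r : ℝ) < b + 1 := Nat.lt_floor_add_one _
  have l2 : (b : ℝ) ≤ (1 / 5 - 1 / 10 ^ 52) * (r : ℝ) := Nat.floor_le (by nlinarith)
  have l3 : 5 * b ≤ r := by
    have : (5 * b : ℝ) ≤ r := by nlinarith
    exact_mod_cast this
  have l4 : 10 ^ 50 * (r + 2) ≤ b + 10 ^ 50 * (5 * b) := by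
    have : (10 : ℝ) ^ 50 * (r + 2) ≤ b + 10 ^ 50 * (5 * b) := by nlinarith
    exact_mod_cast this
  exact H.false (e := r + 2 - 5 * b) (by omega) (by omega) (by omega)

end Pool.Agent.Results.MP_51656a_co.BelowFifth
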